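import Pool.Agent.H7.KR.Stmts

/-!
# Row STG of board `kr`: a good exceptional vertex is a stranger
-/

set_option autoImplicit false

open Finset

namespace Pool.KR

open Pool.Agent.H23.KT Pool.Agent.H46.KW Pool.KQ

theorem stg_nb_non {V : Type} (G : SimpleGraph V) (X : Finset V) (u : V) :
    (nb G X u).card + (non G X u).card = X.card := by
  classical
  unfold nb non
  exact Finset.card_filter_add_card_filter_not _

theorem stg_e1_pos (p : ℕ) : 0 < e1 p := by
  unfold e1
  positivity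

theorem stg_e1_le (p : ℕ) : e1 p ≤ 1 / 16 := by
  unfold e1
  have h : (1 : ℝ) ≤ ((p : ℝ) + 3) ^ 3 := by
    apply one_le_pow₀
    have : (0 : ℝ) ≤ (p : ℝ) := Nat.cast_nonneg _
    linarith
  apply one_div_le_one_div_of_le (by norm_num)
  linarith

theorem stg_third (p : ℕ) (i j : Fin (p + 3)) : ∃ l : Fin (p + 3), l ≠ i ∧ l ≠ j := by
  have h1 : (((univ : Finset (Fin (p + 3))).erase i).erase j).Nonempty := by
    rw [← card_pos]
    have h2 := pred_card_le_card_erase (s := (univ : Finset (Fin (p + 3)))) (a := i)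
    have h3 := pred_card_le_card_erase (s := (univ : Finset (Fin (p + 3))).erase i) (a := j)
    rw [card_univ, Fintype.card_fin] at h2
    omega
  obtain ⟨l, hl⟩ := h1
  rw [mem_erase, mem_erase] at hl
  exact ⟨l, hl.2.1, hl.1⟩

theorem stg (hNMS : NMSStmt) (hWKS : WKSStmt) (hCLM : CLMStmt) : STGStmt := by
  classical
  intro p δ hδ
  have he1 := stg_e1_pos p
  have he1' := stg_e1_le p
  have hp3 : (0 : ℝ) < (p : ℝ) + 3 := by positivity
  obtain ⟨c₁, hc₁def⟩ : ∃ c₁ : ℝ, c₁ = min (e1 p / 64) (δ / (4 * ((p : ℝ) + 3))) := ⟨_, rfl⟩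
  have hc₁ : 0 < c₁ := by
    rw [hc₁def]
    exact lt_min (by positivity) (by positivity)
  have hc₁e : c₁ ≤ e1 p / 64 := by rw [hc₁def]; exact min_le_left _ _
  have hc₁δ : 2 * ((p : ℝ) + 3) * c₁ ≤ δ / 2 := by
    have h1 : c₁ ≤ δ / (4 * ((p : ℝ) + 3)) := by rw [hc₁def]; exact min_le_right _ _
    rw [le_div_iff₀ (by positivity)] at h1
    linarith
  obtain ⟨c, hc0, hc1, a₁, hW⟩ := hWKS p c₁ hc₁
  refine ⟨c, hc0, hc1, e1 p / 32, by positivity, by linarith, fun C => ?_⟩
  obtain ⟨a₂, hN⟩ := hNMS p C c₁ hc₁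
  obtain ⟨a₃, hM⟩ := hCLM p C c₁ hc₁ hc₁e
  refine ⟨max a₁ (max a₂ (max a₃ (max 1 ⌈2 * C / δ⌉₊))), ?_⟩
  intro a ha V _ _ G hG v e P U hStr he0 he z hz hk
  have ha1 : a₁ ≤ a := le_trans (le_max_left _ _) ha
  have ha2 : a₂ ≤ a := le_trans (le_trans (le_max_left _ _) (le_max_right _ _)) ha
  have ha3 : a₃ ≤ a := le_trans (le_trans (le_trans (le_max_left _ _) (le_max_right _ _))
    (le_max_right _ _)) ha
  have ha4 : max 1 ⌈2 * C / δ⌉₊ ≤ a := le_trans (le_trans (le_trans (le_max_right _ _)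
    (le_max_right _ _)) (le_max_right _ _)) ha
  have ha5 : 1 ≤ a := le_trans (le_max_left _ _) ha4
  have haR : (0 : ℝ) < (a : ℝ) := by exact_mod_cast ha5
  have haC : C ≤ δ / 2 * a := by
    have h1 : (2 * C / δ : ℝ) ≤ (a : ℝ) :=
      (Nat.le_ceil _).trans (by exact_mod_cast le_trans (le_max_right _ _) ha4)
    rw [div_le_iff₀ hδ] at h1
    linarith
  have hCBv : CB G (nb G univ v) (p + 3) := hG.cb.nb (mem_univ v)
  have hCBz : CB G (nb G univ z) (p + 3) := hG.cb.nb (mem_univ z)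
  have hzW : z ∈ nb G univ v := (hStr.cov z).2 (Or.inl hz)
  obtain ⟨i, hi⟩ := hN a ha2 G e (nb G univ v) P U hStr he0 (by linarith) hCBv z hzW
  have hfil := hW a ha1 G (nb G univ z) hCBz (hG.deg z) hk
  have hstep := hM a ha3 G hG v e P U hStr he0 he z hz hfil
  have hclaim : ∀ j, j ≠ i → ((nb G (P j) z).card : ℝ) ≤ 2 * c₁ * a := by
    intro j hj
    by_contra hcon
    push Not at hcon
    obtain ⟨k, hki, hkz⟩ := hStr.exc z hz i
    by_cases hkj : k = j
    · subst hkj
      obtain ⟨l, hli, hlk⟩ := stg_third p i k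
      have h1 := hstep i k l hj hli hlk hi hcon
      have h2 := stg_nb_non G (P l) z
      have h3 : ((nb G (P l) z).card : ℝ) + ((non G (P l) z).card : ℝ) = ((P l).card : ℝ) := by
        exact_mod_cast h2
      have h4 := hStr.lo l
      have h5 : 2 * c₁ * (a : ℝ) < ((nb G (P l) z).card : ℝ) := by
        have h6 : (2 * c₁ + e + e1 p / 4) * (a : ℝ) < 1 * (a : ℝ) := by
          apply mul_lt_mul_of_pos_right _ haR
          linarith
        linarith
      have h7 := hstep i l k hli hj (Ne.symm hlk) hi h5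
      linarith
    · have h1 := hstep i j k hj hki hkj hi hcon
      linarith
  have hall : ∀ j, ((nb G (P j) z).card : ℝ) ≤ 2 * c₁ * a := by
    intro j
    by_cases hj : j = i
    · rw [hj]
      have : 0 ≤ c₁ * (a : ℝ) := by positivity
      linarith
    · exact hclaim j hj
  have hsub : co G v z ⊆ U ∪ univ.biUnion (fun j => nb G (P j) z) := by
    intro x hx
    unfold co at hx
    rw [mem_nb] at hx
    rcases (hStr.cov x).1 hx.1 with h | ⟨j, h⟩
    · exact mem_union_left _ h
    · refine mem_union_right _ (mem_biUnion.2 ⟨j, mem_univ j, ?_⟩)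
      rw [mem_nb]
      exact ⟨h, hx.2⟩
  have hcard : (co G v z).card ≤ U.card + ∑ j, (nb G (P j) z).card :=
    (card_le_card hsub).trans ((card_union_le _ _).trans (Nat.add_le_add_left card_biUnion_le _))
  calc ((co G v z).card : ℝ) ≤ (U.card : ℝ) + ∑ j, ((nb G (P j) z).card : ℝ) := by
        exact_mod_cast hcard
    _ ≤ C + ∑ _j : Fin (p + 3), 2 * c₁ * (a : ℝ) :=
        add_le_add hStr.cU (sum_le_sum fun j _ => hall j)
    _ = C + 2 * ((p : ℝ) + 3) * c₁ * a := by
        rw [sum_const, card_univ, Fintype.card_fin, nsmul_eq_mul]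
        push_cast
        ring
    _ ≤ δ / 2 * a + δ / 2 * a := by
        apply add_le_add haC
        exact mul_le_mul_of_nonneg_right hc₁δ haR.le
    _ = δ * a := by ring

end Pool.KR
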